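import Pool.Agent.Helper83.EIN2.Goals

/-!
# Project EIN2, packet LIM: the limit points.
-/

set_option autoImplicit false

namespace Pool.Agent.Helper91.EIN2

open Finset Topology Filter Pool.Agent.Helper83.EIN Pool.Agent.Helper83.EIN2

/-- A cosine equation without denominators. -/
theorem absb {x y z w t c k s : ℝ} (hx : 0 < x) (hy : 0 < y) (ht : 0 ≤ t) (hc0 : 0 ≤ c)
    (hc1 : c ≤ 1) (hk : -1 ≤ k) (hk' : k ≤ 1) (h : w = 1 - t * c * k - s * cs x y z) :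
    |2 * x * y * (w - 1) + s * (x ^ 2 + y ^ 2 - z ^ 2)| ≤ 2 * t * (x * y) := by
  have h1 : 2 * x * y * cs x y z = x ^ 2 + y ^ 2 - z ^ 2 := by
    unfold cs
    field_simp
  have h2 : 2 * x * y * (w - 1) + s * (x ^ 2 + y ^ 2 - z ^ 2) = -(2 * x * y * (t * c * k)) := by
    rw [← h1, h]
    ring
  rw [h2, abs_neg, abs_mul, abs_of_pos (by positivity : 0 < 2 * x * y)]
  have h3 : |t * c * k| ≤ t := by
    rw [abs_mul, abs_mul, abs_of_nonneg ht, abs_of_nonneg hc0]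
    have h4 : |k| ≤ 1 := abs_le.2 ⟨hk, hk'⟩
    calc t * c * |k| ≤ t * 1 * 1 :=
          mul_le_mul (mul_le_mul_of_nonneg_left hc1 ht) h4 (abs_nonneg _) (by linarith)
      _ = t := by ring
  calc 2 * x * y * |t * c * k| ≤ 2 * x * y * t := mul_le_mul_of_nonneg_left h3 (by positivity)
    _ = 2 * t * (x * y) := by ring

/-- The closed conditions. -/
structure CC (β t : ℝ) (v : Fin 6 → ℝ) : Prop where
  c0 : 2 * v 2 * v 4 * v 3 * v 5 * (v 0 - 1) +
      (1 - t) * β * (v 2 ^ 2 + v 4 ^ 2 - v 0 ^ 2) * v 3 * v 5 +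
      (1 - t) * (1 - β) * (v 3 ^ 2 + v 5 ^ 2 - v 0 ^ 2) * v 2 * v 4 = 0
  c1 : |v 1 - 1| ≤ t
  c2 : |2 * v 1 * v 3 * (v 2 - 1) + (1 - t) * (1 - β) * (v 1 ^ 2 + v 3 ^ 2 - v 2 ^ 2)| ≤
    2 * t * (v 1 * v 3)
  c3 : |2 * v 1 * v 2 * (v 3 - 1) + (1 - t) * β * (v 1 ^ 2 + v 2 ^ 2 - v 3 ^ 2)| ≤
    2 * t * (v 1 * v 2)
  c4 : |2 * v 1 * v 5 * (v 4 - 1) + (1 - t) * (1 - β) * (v 1 ^ 2 + v 5 ^ 2 - v 4 ^ 2)| ≤
    2 * t * (v 1 * v 5)
  c5 : |2 * v 1 * v 4 * (v 5 - 1) + (1 - t) * β * (v 1 ^ 2 + v 4 ^ 2 - v 5 ^ 2)| ≤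
    2 * t * (v 1 * v 4)
  l2 : (1 - t) * β ≤ v 2
  l3 : (1 - t) * (1 - β) ≤ v 3
  l4 : (1 - t) * β ≤ v 4
  l5 : (1 - t) * (1 - β) ≤ v 5

theorem CC_closed : IsClosed {z : (ℝ × ℝ) × (Fin 6 → ℝ) | CC z.1.1 z.1.2 z.2} := by
  have h : {z : (ℝ × ℝ) × (Fin 6 → ℝ) | CC z.1.1 z.1.2 z.2} =
      {z : (ℝ × ℝ) × (Fin 6 → ℝ) |
        2 * z.2 2 * z.2 4 * z.2 3 * z.2 5 * (z.2 0 - 1) +
        (1 - z.1.2) * z.1.1 * (z.2 2 ^ 2 + z.2 4 ^ 2 - z.2 0 ^ 2) * z.2 3 * z.2 5 +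
        (1 - z.1.2) * (1 - z.1.1) * (z.2 3 ^ 2 + z.2 5 ^ 2 - z.2 0 ^ 2) * z.2 2 * z.2 4 = 0} ∩
      ({z | |z.2 1 - 1| ≤ z.1.2} ∩
      ({z | |2 * z.2 1 * z.2 3 * (z.2 2 - 1) +
        (1 - z.1.2) * (1 - z.1.1) * (z.2 1 ^ 2 + z.2 3 ^ 2 - z.2 2 ^ 2)| ≤
        2 * z.1.2 * (z.2 1 * z.2 3)} ∩
      ({z | |2 * z.2 1 * z.2 2 * (z.2 3 - 1) +
        (1 - z.1.2) * z.1.1 * (z.2 1 ^ 2 + z.2 2 ^ 2 - z.2 3 ^ 2)| ≤
        2 * z.1.2 * (z.2 1 * z.2 2)} ∩
      ({z | |2 * z.2 1 * z.2 5 * (z.2 4 - 1) +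
        (1 - z.1.2) * (1 - z.1.1) * (z.2 1 ^ 2 + z.2 5 ^ 2 - z.2 4 ^ 2)| ≤
        2 * z.1.2 * (z.2 1 * z.2 5)} ∩
      ({z | |2 * z.2 1 * z.2 4 * (z.2 5 - 1) +
        (1 - z.1.2) * z.1.1 * (z.2 1 ^ 2 + z.2 4 ^ 2 - z.2 5 ^ 2)| ≤
        2 * z.1.2 * (z.2 1 * z.2 4)} ∩
      ({z | (1 - z.1.2) * z.1.1 ≤ z.2 2} ∩ ({z | (1 - z.1.2) * (1 - z.1.1) ≤ z.2 3} ∩
      ({z | (1 - z.1.2) * z.1.1 ≤ z.2 4} ∩ {z | (1 - z.1.2) * (1 - z.1.1) ≤ z.2 5})))))))) := by
    ext z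
    constructor
    · rintro ⟨h0, h1, h2, h3, h4, h5, h6, h7, h8, h9⟩
      exact ⟨h0, h1, h2, h3, h4, h5, h6, h7, h8, h9⟩
    · rintro ⟨h0, h1, h2, h3, h4, h5, h6, h7, h8, h9⟩
      exact ⟨h0, h1, h2, h3, h4, h5, h6, h7, h8, h9⟩
  rw [h]
  refine IsClosed.inter (isClosed_eq (by fun_prop) (by fun_prop)) (IsClosed.inter
    (isClosed_le (by fun_prop) (by fun_prop)) (IsClosed.inter
    (isClosed_le (by fun_prop) (by fun_prop)) (IsClosed.inter
    (isClosed_le (by fun_prop) (by fun_prop)) (IsClosed.inter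
    (isClosed_le (by fun_prop) (by fun_prop)) (IsClosed.inter
    (isClosed_le (by fun_prop) (by fun_prop)) (IsClosed.inter
    (isClosed_le (by fun_prop) (by fun_prop)) (IsClosed.inter
    (isClosed_le (by fun_prop) (by fun_prop)) (IsClosed.inter
    (isClosed_le (by fun_prop) (by fun_prop))
    (isClosed_le (by fun_prop) (by fun_prop))))))))))

/-- Solutions satisfy the closed conditions. -/
theorem CC_of_sol {a β t : ℝ} {v : Fin 6 → ℝ} (ha0 : 0 < a) (ha1 : a < 1) (ht : 0 < t)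
    (h : Sol2 a β t v) (hb : Bd2 β t v) : CC β t v := by
  have p0 := h.pos 0
  have p1 := h.pos 1
  have p2 := h.pos 2
  have p3 := h.pos 3
  have p4 := h.pos 4
  have p5 := h.pos 5
  obtain ⟨t21, t22, t23⟩ := hb.t2
  obtain ⟨t31, t32, t33⟩ := hb.t3
  have k2 : Tri (v 0) (v 4) (v 2) := ⟨by linarith, by linarith, by linarith⟩
  have k3 : Tri (v 0) (v 5) (v 3) := ⟨by linarith, by linarith, by linarith⟩
  refine ⟨?_, ?_, ?_, ?_, ?_, ?_, hb.l2, hb.l3, hb.l4, hb.l5⟩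
  · have e0 := h.e0
    have h1 : 2 * v 2 * v 4 * cs (v 2) (v 4) (v 0) = v 2 ^ 2 + v 4 ^ 2 - v 0 ^ 2 := by
      unfold cs
      field_simp
    have h2 : 2 * v 3 * v 5 * cs (v 3) (v 5) (v 0) = v 3 ^ 2 + v 5 ^ 2 - v 0 ^ 2 := by
      unfold cs
      field_simp
    rw [← h1, ← h2]
    linear_combination (2 * v 2 * v 4 * v 3 * v 5) * e0
  · rw [abs_le]
    constructor <;> linarith [hb.l1, hb.u1]
  · exact absb p1 p3 ht.le (by linarith) (by linarith) (le_cs p0 p4 p2 k2) (cs_le p0 p4 p2 k2) h.e2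
  · exact absb p1 p2 ht.le (by linarith) (by linarith) (le_cs p0 p5 p3 k3) (cs_le p0 p5 p3 k3) h.e3
  · exact absb p1 p5 ht.le (by linarith) (by linarith) (le_cs p0 p2 p4 hb.t2) (cs_le p0 p2 p4 hb.t2)
      h.e4
  · exact absb p1 p4 ht.le (by linarith) (by linarith) (le_cs p0 p3 p5 hb.t3) (cs_le p0 p3 p5 hb.t3)
      h.e5

/-- The positions of a block in the limit. -/
theorem position {β y z : ℝ} (hβ0 : 0 < β) (hβ1 : β < 1) (hy : β ≤ y) (hz : 1 - β ≤ z)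
    (e2 : 2 * z * (y - 1) + (1 - β) * (1 + z ^ 2 - y ^ 2) = 0)
    (e3 : 2 * y * (z - 1) + β * (1 + y ^ 2 - z ^ 2) = 0) :
    (y = β ∧ z = 1 + β) ∨ (y = β ∧ z = 1 - β) ∨ (y = 2 - β ∧ z = 1 - β) := by
  have hy0 : 0 < y := by linarith
  have hz0 : 0 < z := by linarith
  have h1 : ((y - z + 1) * (y + z - 1)) * ((z - y + 1) * (z + y - 1)) = 0 := by
    linear_combination (1 + y ^ 2 - z ^ 2) * e2 + (1 + z ^ 2 - y ^ 2) * e3
  have h2 : (y - z + 1 = 0) ∨ (y + z - 1 = 0) ∨ (z - y + 1 = 0) := by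
    rcases mul_eq_zero.1 h1 with h | h
    · rcases mul_eq_zero.1 h with h | h
      · exact Or.inl h
      · exact Or.inr (Or.inl h)
    · rcases mul_eq_zero.1 h with h | h
      · exact Or.inr (Or.inr h)
      · exact Or.inr (Or.inl (by linarith))
  rcases h2 with h | h | h
  · have hz' : z = y + 1 := by linarith
    subst hz'
    have h3 : (2 * y) * (y - β) = 0 := by linear_combination e3
    have h4 := (mul_eq_zero.1 h3).resolve_left (by positivity)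
    left
    constructor <;> linarith
  · have hz' : z = 1 - y := by linarith
    subst hz'
    have h3 : (2 * (1 - y)) * (y - β) = 0 := by linear_combination e2
    have h4 := (mul_eq_zero.1 h3).resolve_left (by positivity)
    right; left
    constructor <;> linarith
  · have hy' : y = z + 1 := by linarith
    subst hy'
    have h3 : (2 * z) * (z - (1 - β)) = 0 := by linear_combination e2
    have h4 := (mul_eq_zero.1 h3).resolve_left (by positivity)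
    right; right
    constructor <;> linarith

theorem vec_eq {v : Fin 6 → ℝ} {x0 x1 x2 x3 x4 x5 : ℝ} (h0 : v 0 = x0) (h1 : v 1 = x1)
    (h2 : v 2 = x2) (h3 : v 3 = x3) (h4 : v 4 = x4) (h5 : v 5 = x5) :
    v = ![x0, x1, x2, x3, x4, x5] := by
  funext i
  fin_cases i <;> assumption

/-- The limit points satisfy the closed conditions, and these are all. -/
theorem limit {β : ℝ} {v : Fin 6 → ℝ} (hβ0 : 0 < β) (hβ1 : β < 1) (h0 : 0 ≤ v 0)
    (h : CC β 0 v) : v ∈ Lim β := by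
  obtain ⟨c0, c1, c2, c3, c4, c5, l2, l3, l4, l5⟩ := h
  have w1 : v 1 = 1 := by
    have := abs_nonpos_iff.1 c1
    linarith
  rw [w1] at c2 c3 c4 c5
  simp only [mul_zero, zero_mul, sub_zero, one_mul, mul_one, one_pow] at c0 c2 c3 c4 c5 l2 l3 l4 l5
  have d2 := abs_nonpos_iff.1 c2
  have d3 := abs_nonpos_iff.1 c3
  have d4 := abs_nonpos_iff.1 c4
  have d5 := abs_nonpos_iff.1 c5
  have hg : 0 < 1 - β := by linarith
  have hu : (v 0 : ℝ) = v 0 := rfl
  rcases position hβ0 hβ1 l2 l3 d2 d3 with ⟨y0, z0⟩ | ⟨y0, z0⟩ | ⟨y0, z0⟩ <;>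
  rcases position hβ0 hβ1 l4 l5 d4 d5 with ⟨y1, z1⟩ | ⟨y1, z1⟩ | ⟨y1, z1⟩ <;>
  rw [y0, z0, y1, z1] at c0
  · -- LL
    have h1 : v 0 * ((β * (1 + β) ^ 2 + (1 - β) * β ^ 2) * v 0 - 2 * β ^ 2 * (1 + β) ^ 2) = 0 := by
      linear_combination -c0
    rcases mul_eq_zero.1 h1 with h2 | h2
    · rw [vec_eq h2 w1 y0 z0 y1 z1]
      simp [Lim]
    · have h3 : v 0 = uL β := by
        unfold uL
        have h4 : 0 < β * (1 + β) ^ 2 + (1 - β) * β ^ 2 := by positivity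
        have h5 : v 0 = 2 * β ^ 2 * (1 + β) ^ 2 / (β * (1 + β) ^ 2 + (1 - β) * β ^ 2) := by
          rw [eq_div_iff h4.ne']
          linarith
        rw [h5]
        field_simp
      rw [vec_eq h3 w1 y0 z0 y1 z1]
      simp [Lim]
  · -- LM
    have h1 : ((1 - β) * β * (v 0 - 2 * β)) * ((1 + 2 * β) * v 0 + 2 * β ^ 2) = 0 := by
      linear_combination -c0
    have h2 := (mul_eq_zero.1 h1).resolve_right (by positivity)
    have h3 := (mul_eq_zero.1 h2).resolve_left (by positivity)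
    have h4 : v 0 = 2 * β := by linarith
    rw [vec_eq h4 w1 y0 z0 y1 z1]
    simp [Lim]
  · -- LR
    have h1 : (β * (1 - β) * (v 0 - 2)) * (3 * v 0 + 2 - 2 * β + 2 * β ^ 2) = 0 := by
      linear_combination -c0
    have h2 := (mul_eq_zero.1 h1).resolve_right (by nlinarith)
    have h3 := (mul_eq_zero.1 h2).resolve_left (by positivity)
    have h4 : v 0 = 2 := by linarith
    rw [vec_eq h4 w1 y0 z0 y1 z1]
    simp [Lim]
  · -- ML
    have h1 : ((1 - β) * β * (v 0 - 2 * β)) * ((1 + 2 * β) * v 0 + 2 * β ^ 2) = 0 := by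
      linear_combination -c0
    have h2 := (mul_eq_zero.1 h1).resolve_right (by positivity)
    have h3 := (mul_eq_zero.1 h2).resolve_left (by positivity)
    have h4 : v 0 = 2 * β := by linarith
    rw [vec_eq h4 w1 y0 z0 y1 z1]
    simp [Lim]
  · -- MM
    have h1 : (β * (1 - β)) * (v 0 * (v 0 - 2 * β * (1 - β))) = 0 := by
      linear_combination -c0
    have h2 := (mul_eq_zero.1 h1).resolve_left (by positivity)
    rcases mul_eq_zero.1 h2 with h2 | h2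
    · rw [vec_eq h2 w1 y0 z0 y1 z1]
      simp [Lim]
    · have h3 : v 0 = 2 * β * (1 - β) := by linarith
      rw [vec_eq h3 w1 y0 z0 y1 z1]
      simp [Lim]
  · -- MR
    have h1 : ((1 - β) * β * (v 0 - 2 * (1 - β))) *
        ((1 + 2 * (1 - β)) * v 0 + 2 * (1 - β) ^ 2) = 0 := by
      linear_combination -c0
    have h2 := (mul_eq_zero.1 h1).resolve_right (by positivity)
    have h3 := (mul_eq_zero.1 h2).resolve_left (by positivity)
    have h4 : v 0 = 2 * (1 - β) := by linarith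
    rw [vec_eq h4 w1 y0 z0 y1 z1]
    simp [Lim]
  · -- RL
    have h1 : (β * (1 - β) * (v 0 - 2)) * (3 * v 0 + 2 - 2 * β + 2 * β ^ 2) = 0 := by
      linear_combination -c0
    have h2 := (mul_eq_zero.1 h1).resolve_right (by nlinarith)
    have h3 := (mul_eq_zero.1 h2).resolve_left (by positivity)
    have h4 : v 0 = 2 := by linarith
    rw [vec_eq h4 w1 y0 z0 y1 z1]
    simp [Lim]
  · -- RM
    have h1 : ((1 - β) * β * (v 0 - 2 * (1 - β))) *
        ((1 + 2 * (1 - β)) * v 0 + 2 * (1 - β) ^ 2) = 0 := by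
      linear_combination -c0
    have h2 := (mul_eq_zero.1 h1).resolve_right (by positivity)
    have h3 := (mul_eq_zero.1 h2).resolve_left (by positivity)
    have h4 : v 0 = 2 * (1 - β) := by linarith
    rw [vec_eq h4 w1 y0 z0 y1 z1]
    simp [Lim]
  · -- RR
    have h1 : v 0 * (((1 - β) * (2 - β) ^ 2 + β * (1 - β) ^ 2) * v 0 -
        2 * (1 - β) ^ 2 * (2 - β) ^ 2) = 0 := by
      linear_combination -c0
    rcases mul_eq_zero.1 h1 with h2 | h2
    · rw [vec_eq h2 w1 y0 z0 y1 z1]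
      simp [Lim]
    · have h3 : v 0 = uL (1 - β) := by
        unfold uL
        have h6 : 0 < 2 - β := by linarith
        have h4 : 0 < (1 - β) * (2 - β) ^ 2 + β * (1 - β) ^ 2 := by positivity
        have h5 : v 0 = 2 * (1 - β) ^ 2 * (2 - β) ^ 2 /
            ((1 - β) * (2 - β) ^ 2 + β * (1 - β) ^ 2) := by
          rw [eq_div_iff h4.ne']
          linarith
        have h7 : 1 - (1 - β) = β := by ring
        have h8 : 1 + (1 - β) = 2 - β := by ring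
        rw [h5, h7, h8]
        field_simp
      rw [vec_eq h3 w1 y0 z0 y1 z1]
      simp [Lim]

theorem lim (hBD : BD) : LIM := by
  intro a₀ β₀ ha0 ha1 hβ0 hβ1 δ hδ
  set K : Set (Fin 6 → ℝ) := Set.Icc 0 2 with hK
  set O : Set (Fin 6 → ℝ) := {v | ∃ L ∈ Lim β₀, ∀ i, |v i - L i| < δ} with hO
  have hOo : IsOpen O := by
    have h1 : O = ⋃ L ∈ {L | L ∈ Lim β₀}, ⋂ i : Fin 6, {v : Fin 6 → ℝ | |v i - L i| < δ} := by
      ext v
      simp [hO]
    rw [h1]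
    refine isOpen_biUnion fun L _ ↦ isOpen_iInter_of_finite fun i ↦ ?_
    exact isOpen_lt (by fun_prop) (by fun_prop)
  have hcomp : IsCompact (K \ O) := (isCompact_Icc).diff hOo
  have hCo : IsOpen {z : (ℝ × ℝ) × (Fin 6 → ℝ) | CC z.1.1 z.1.2 z.2}ᶜ := CC_closed.isOpen_compl
  obtain ⟨U, V, hU, -, hU0, hV, hUV⟩ := generalized_tube_lemma
    (isCompact_singleton (x := ((β₀, 0) : ℝ × ℝ))) hcomp hCo (by
      rintro ⟨τ, v⟩ ⟨hτ, hv⟩ hC
      rw [Set.mem_singleton_iff] at hτ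
      change τ = (β₀, 0) at hτ
      subst hτ
      have hv' : v ∈ K \ O := hv
      have hC' : CC β₀ 0 v := hC
      have h0 : 0 ≤ v 0 := hv'.1.1 0
      refine hv'.2 ⟨v, limit hβ0 hβ1 h0 hC', fun i ↦ ?_⟩
      rw [sub_self, abs_zero]
      exact hδ)
  obtain ⟨ε₁, hε₁, hball⟩ := Metric.isOpen_iff.1 hU (β₀, 0) (hU0 rfl)
  refine ⟨min (min ε₁ (1 / 2)) (min (min (a₀ / 2) ((1 - a₀) / 2)) (min (β₀ / 2) ((1 - β₀) / 2))),
    ?_, ?_⟩
  · have : 0 < 1 - a₀ := by linarith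
    have : 0 < 1 - β₀ := by linarith
    positivity
  · intro a β t v hN hS
    have e1 := min_le_left (min ε₁ (1 / 2)) (min (min (a₀ / 2) ((1 - a₀) / 2)) (min (β₀ / 2) ((1 - β₀) / 2)))
    have e2 := min_le_right (min ε₁ (1 / 2)) (min (min (a₀ / 2) ((1 - a₀) / 2)) (min (β₀ / 2) ((1 - β₀) / 2)))
    have N1 := hN.mono (e1.trans (min_le_left _ _))
    have N2 := hN.mono (e1.trans (min_le_right _ _))
    have N3 := hN.mono (e2.trans ((min_le_left _ _).trans (min_le_left _ _)))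
    have N4 := hN.mono (e2.trans ((min_le_left _ _).trans (min_le_right _ _)))
    have N5 := hN.mono (e2.trans ((min_le_right _ _).trans (min_le_left _ _)))
    have N6 := hN.mono (e2.trans ((min_le_right _ _).trans (min_le_right _ _)))
    have a0 : 0 < a := by have := (abs_lt.1 N3.ha).1; linarith
    have a1 : a < 1 := by have := (abs_lt.1 N4.ha).2; linarith
    have b0 : 0 < β := by have := (abs_lt.1 N5.hb).1; linarith
    have b1 : β < 1 := by have := (abs_lt.1 N6.hb).2; linarith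
    have t0 := hN.t0
    have t1 : t < 1 := by have := N2.t1; linarith
    have hb := hBD a β t v a0 a1 b0 b1 t0 t1 hS
    have hC := CC_of_sol a0 a1 t0 hS hb
    by_contra hno
    have hvK : v ∈ K := by
      rw [hK, Set.mem_Icc, Pi.le_def, Pi.le_def]
      constructor
      · intro i
        exact (hS.pos i).le
      · intro i
        fin_cases i
        · exact hb.u0
        · have := hb.u1
          change v 1 ≤ 2
          linarith
        · exact hb.u2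
        · exact hb.u3
        · exact hb.u4
        · exact hb.u5
    have hvV : v ∈ V := hV ⟨hvK, hno⟩
    have hτU : ((β, t) : ℝ × ℝ) ∈ U := by
      refine hball ?_
      rw [Metric.mem_ball, Prod.dist_eq]
      simp only [Real.dist_eq, sub_zero]
      refine max_lt N1.hb ?_
      rw [abs_of_pos t0]
      exact N1.t1
    exact hUV (Set.mk_mem_prod hτU hvV) hC

end Pool.Agent.Helper91.EIN2
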